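import Pool.Agent.Helper47.RFn.CoreN

/-!
# Project RFn (MP_c98eff_gt), packet 5844: C11, recognising smooth functions
-/

namespace Pool.Agent.Helper47.RFn

open Finset Filter Topology

/-- coordinate vector -/
noncomputable def c11e {n : ℕ} (i : Fin (n + 1)) : EE n := EuclideanSpace.single i (1 : ℝ)

/-- coordinate functional -/
noncomputable def c11p {n : ℕ} (i : Fin (n + 1)) : EE n →L[ℝ] ℝ := EuclideanSpace.proj i

theorem c11_sum {n : ℕ} (h : EE n) : ∑ i, h i • c11e i = h := by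
  ext k
  simp [c11e, Finset.sum_apply, Pi.single_apply]

theorem c11_norm_e {n : ℕ} (i : Fin (n + 1)) : ‖(c11e i : EE n)‖ = 1 := by
  simp [c11e]

theorem c11_part {n : ℕ} (s : Finset (Fin (n + 1))) (h : EE n) :
    ‖∑ i ∈ s, h i • c11e i‖ ≤ ((n : ℝ) + 1) * ‖h‖ := by
  calc ‖∑ i ∈ s, h i • (c11e i : EE n)‖ ≤ ∑ i ∈ s, ‖h i • (c11e i : EE n)‖ := norm_sum_le _ _
    _ ≤ ∑ _i ∈ s, ‖h‖ := by
        refine Finset.sum_le_sum fun i _ => ?_
        rw [norm_smul, c11_norm_e, mul_one]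
        exact PiLp.norm_apply_le h i
    _ = (s.card : ℝ) * ‖h‖ := by rw [Finset.sum_const, nsmul_eq_mul]
    _ ≤ ((n : ℝ) + 1) * ‖h‖ := by
        refine mul_le_mul_of_nonneg_right ?_ (norm_nonneg _)
        have : s.card ≤ n + 1 := by simpa using Finset.card_le_univ s
        exact_mod_cast this

theorem c11_seg {n : ℕ} {f g : EE n → ℝ} {i : Fin (n + 1)} {S : Set (EE n)}
    (hd : ∀ y ∈ S, HasDerivAt (fun s : ℝ => f (y + s • c11e i)) (g y) 0) {y : EE n} {a m ε : ℝ}
    (hS : ∀ s : ℝ, |s| ≤ |a| → y + s • c11e i ∈ S)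
    (hb : ∀ s : ℝ, |s| ≤ |a| → |g (y + s • c11e i) - m| ≤ ε) :
    |f (y + a • c11e i) - f y - a * m| ≤ ε * |a| := by
  have hder : ∀ s ∈ Metric.closedBall (0 : ℝ) |a|,
      HasDerivWithinAt (fun u : ℝ => f (y + u • c11e i) - u * m)
        (g (y + s • c11e i) - 1 * m) (Metric.closedBall (0 : ℝ) |a|) s := by
    intro s hs
    have hs' : |s| ≤ |a| := by simpa using hs
    have h := hd _ (hS s hs')
    have h2 : HasDerivAt (fun u : ℝ => u - s) 1 s := (hasDerivAt_id s).sub_const s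
    have h0 : s - s = (0 : ℝ) := sub_self s
    rw [← h0] at h
    have h3 := HasDerivAt.comp (h₂ := fun u : ℝ => f (y + s • c11e i + u • c11e i))
      (h := fun u : ℝ => u - s) s h h2
    rw [mul_one] at h3
    have he : ((fun u : ℝ => f (y + s • c11e i + u • c11e i)) ∘ fun u : ℝ => u - s)
        = fun u : ℝ => f (y + u • c11e i) := by
      funext u
      simp only [Function.comp]
      rw [add_assoc, ← add_smul, add_sub_cancel]
    rw [he] at h3
    exact (h3.sub ((hasDerivAt_id s).mul_const m)).hasDerivWithinAt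
  have hbd : ∀ s ∈ Metric.closedBall (0 : ℝ) |a|, ‖g (y + s • c11e i) - 1 * m‖ ≤ ε := by
    intro s hs
    rw [Real.norm_eq_abs, one_mul]
    apply hb
    simpa using hs
  have h := (convex_closedBall (0 : ℝ) |a|).norm_image_sub_le_of_norm_hasDerivWithin_le hder hbd
    (by simp : (0 : ℝ) ∈ Metric.closedBall (0 : ℝ) |a|) (by simp : a ∈ Metric.closedBall (0 : ℝ) |a|)
  simp only [Real.norm_eq_abs, zero_smul, add_zero, zero_mul, sub_zero] at h
  have he : f (y + a • c11e i) - f y - a * m = f (y + a • c11e i) - a * m - f y := by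
    ring
  rw [he]; exact h

/-- a function with continuous partial derivatives is differentiable -/
theorem c11_fd {n : ℕ} {f : EE n → ℝ} {G : Fin (n + 1) → EE n → ℝ}
    (hd : ∀ i, ∀ y ≠ 0, HasDerivAt (fun s : ℝ => f (y + s • c11e i)) (G i y) 0) {x : EE n}
    (hx : x ≠ 0) (hG : ∀ i, ContinuousAt (G i) x) :
    HasFDerivAt f (∑ i, G i x • c11p i) x := by
  rw [hasFDerivAt_iff_isLittleO_nhds_zero, Asymptotics.isLittleO_iff]
  intro c hc
  have hn : (0 : ℝ) < (n : ℝ) + 1 := by positivity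
  set ε := c / ((n : ℝ) + 1) with hε
  have hε0 : 0 < ε := by positivity
  have hev : ∀ᶠ y in 𝓝 x, y ≠ 0 ∧ ∀ i, |G i y - G i x| < ε := by
    have h1 : ∀ᶠ y in 𝓝 x, y ≠ 0 := isOpen_compl_singleton.mem_nhds hx
    have h2 : ∀ᶠ y in 𝓝 x, ∀ i, |G i y - G i x| < ε := by
      rw [Filter.eventually_all]
      intro i
      have := (Metric.continuousAt_iff'.1 (hG i)) ε hε0
      simpa [Real.dist_eq] using this
    exact h1.and h2
  obtain ⟨δ, hδ, hB⟩ := Metric.eventually_nhds_iff.1 hev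
  have hδ' : 0 < δ / (2 * ((n : ℝ) + 1)) := by positivity
  filter_upwards [Metric.ball_mem_nhds (0 : EE n) hδ'] with h hh
  have hh' : ‖h‖ < δ / (2 * ((n : ℝ) + 1)) := by simpa using hh
  have hnh : ((n : ℝ) + 1) * ‖h‖ < δ / 2 := by
    rw [lt_div_iff₀ (by positivity)] at hh'
    linarith
  have hnh1 : ‖h‖ ≤ ((n : ℝ) + 1) * ‖h‖ := by
    have := norm_nonneg h
    nlinarith [mul_nonneg (Nat.cast_nonneg (α := ℝ) n) this]
  have key : ∀ s : Finset (Fin (n + 1)),
      |f (x + ∑ i ∈ s, h i • c11e i) - f x - ∑ i ∈ s, h i * G i x| ≤ ε * ∑ i ∈ s, |h i| := by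
    intro s
    induction s using Finset.induction_on with
    | empty => simp
    | insert i s hi ih =>
      rw [Finset.sum_insert hi, Finset.sum_insert hi, Finset.sum_insert hi]
      have hin : ∀ u : ℝ, |u| ≤ |h i| → dist (x + ∑ j ∈ s, h j • c11e j + u • c11e i) x < δ := by
        intro u hu
        rw [dist_eq_norm]
        have e : x + ∑ j ∈ s, h j • c11e j + u • c11e i - x =
            ∑ j ∈ s, h j • c11e j + u • c11e i := by abel
        rw [e]
        have h1 := c11_part s h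
        have h2 : ‖u • (c11e i : EE n)‖ ≤ ‖h‖ := by
          rw [norm_smul, c11_norm_e, mul_one, Real.norm_eq_abs]
          exact hu.trans (PiLp.norm_apply_le h i)
        calc _ ≤ _ := norm_add_le _ _
          _ < δ := by linarith
      have hseg := c11_seg (f := f) (g := G i) (S := {y | y ≠ 0}) (i := i) (fun y hy => hd i y hy)
        (y := x + ∑ j ∈ s, h j • c11e j) (a := h i) (m := G i x) (ε := ε)
        (fun u hu => (hB (hin u hu)).1) (fun u hu => ((hB (hin u hu)).2 i).le)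
      have e1 : x + (h i • c11e i + ∑ j ∈ s, h j • c11e j) =
          x + ∑ j ∈ s, h j • c11e j + h i • c11e i := by abel
      rw [e1]
      rw [abs_le] at ih hseg ⊢
      constructor <;> linarith [ih.1, ih.2, hseg.1, hseg.2]
  have hfin := key Finset.univ
  rw [c11_sum] at hfin
  have hL : (∑ i, G i x • c11p i) h = ∑ i, h i * G i x := by
    rw [_root_.sum_apply]
    refine Finset.sum_congr rfl fun i _ => ?_
    simp [c11p, mul_comm]
  rw [hL, Real.norm_eq_abs]
  refine hfin.trans ?_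
  calc ε * ∑ i, |h i| ≤ ε * ∑ _i : Fin (n + 1), ‖h‖ := by
        refine mul_le_mul_of_nonneg_left (Finset.sum_le_sum fun i _ => ?_) hε0.le
        exact PiLp.norm_apply_le h i
    _ = c * ‖h‖ := by
        rw [Finset.sum_const, Finset.card_univ, Fintype.card_fin, nsmul_eq_mul, hε]
        push_cast
        field_simp

theorem c11_conv {n : ℕ} {f : EE n → ℝ} {g : ℝ} {i : Fin (n + 1)} {x : EE n} (hx : x ≠ 0)
    (h : HasDerivAt (fun s : ℝ => f (x + s • (‖x‖ • EuclideanSpace.single i (1:ℝ)))) g 0) :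
    HasDerivAt (fun s : ℝ => f (x + s • c11e i)) (‖x‖⁻¹ * g) 0 := by
  have hx' : ‖x‖ ≠ 0 := norm_ne_zero_iff.2 hx
  have h2 : HasDerivAt (fun u : ℝ => u * ‖x‖⁻¹) (‖x‖⁻¹) 0 := by
    simpa using (hasDerivAt_id (0 : ℝ)).mul_const (‖x‖⁻¹)
  have h0 : (0 : ℝ) * ‖x‖⁻¹ = 0 := zero_mul _
  rw [← h0] at h
  have h3 := HasDerivAt.comp
    (h₂ := fun s : ℝ => f (x + s • (‖x‖ • EuclideanSpace.single i (1:ℝ))))
    (h := fun u : ℝ => u * ‖x‖⁻¹) 0 h h2
  have he : ((fun s : ℝ => f (x + s • (‖x‖ • EuclideanSpace.single i (1:ℝ)))) ∘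
      fun u : ℝ => u * ‖x‖⁻¹) = fun u : ℝ => f (x + u • c11e i) := by
    funext u
    simp only [Function.comp]
    rw [smul_smul, mul_assoc, inv_mul_cancel₀ hx', mul_one]
    rfl
  rw [he, mul_comm] at h3
  exact h3

theorem c11_hfd {n : ℕ} {F : List (Fin (n + 1)) → EE n → ℝ}
    (hC : ∀ w, ContinuousOn (F w) {0}ᶜ)
    (hd : ∀ w i x, x ≠ 0 → HasDerivAt
      (fun s : ℝ => F w (x + s • (‖x‖ • EuclideanSpace.single i (1:ℝ)))) (F (i :: w) x) 0)
    (w : List (Fin (n + 1))) {x : EE n} (hx : x ≠ 0) :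
    HasFDerivAt (F w) (∑ i, (‖x‖⁻¹ * F (i :: w) x) • c11p i) x := by
  refine c11_fd (G := fun i y => ‖y‖⁻¹ * F (i :: w) y) (fun i y hy => c11_conv hy (hd w i y hy)) hx
    fun i => ?_
  refine ContinuousAt.mul (ContinuousAt.inv₀ continuous_norm.continuousAt ?_) ?_
  · exact norm_ne_zero_iff.2 hx
  · exact (hC (i :: w)).continuousAt (isOpen_compl_singleton.mem_nhds hx)

theorem c11_smooth {n : ℕ} {F : List (Fin (n + 1)) → EE n → ℝ}
    (hC : ∀ w, ContinuousOn (F w) {0}ᶜ)
    (hd : ∀ w i x, x ≠ 0 → HasDerivAt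
      (fun s : ℝ => F w (x + s • (‖x‖ • EuclideanSpace.single i (1:ℝ)))) (F (i :: w) x) 0)
    (m : ℕ) : ∀ w, ContDiffOn ℝ m (F w) {0}ᶜ := by
  induction m with
  | zero =>
    intro w
    simpa using hC w
  | succ m ih =>
    intro w
    have hfd := fun (x : EE n) (hx : x ≠ 0) => c11_hfd hC hd w hx
    have hcast : ((m + 1 : ℕ) : WithTop ℕ∞) = (m : WithTop ℕ∞) + 1 := by push_cast; rfl
    rw [hcast, contDiffOn_succ_iff_fderiv_of_isOpen isOpen_compl_singleton]
    refine ⟨fun x hx => (hfd x hx).differentiableAt.differentiableWithinAt, ?_, ?_⟩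
    · intro h; exact absurd h (by simp)
    · have h1 : ContDiffOn ℝ m (fun x : EE n => ∑ i, (‖x‖⁻¹ * F (i :: w) x) • c11p i) {0}ᶜ := by
        refine ContDiffOn.sum fun i _ => ?_
        have h2 : ContDiffOn ℝ m (fun x : EE n => ‖x‖) {0}ᶜ :=
          fun x hx => (contDiffAt_norm ℝ hx).contDiffWithinAt
        have h3 : ContDiffOn ℝ m (fun x : EE n => ‖x‖⁻¹ * F (i :: w) x) {0}ᶜ :=
          (h2.inv fun x hx => norm_ne_zero_iff.2 hx).mul (ih (i :: w))
        have h4 : ContDiffOn ℝ m (fun _ : EE n => (c11p i : EE n →L[ℝ] ℝ)) {0}ᶜ :=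
          contDiffOn_const
        exact h3.smul h4
      exact h1.congr fun x hx => (hfd x hx).fderiv

theorem goal_C11' : Goal_C11 := by
  intro n F hH hC hd
  refine ⟨⟨contDiffOn_infty.2 fun m => c11_smooth hC hd m [], hH []⟩, ?_⟩
  intro w
  induction w with
  | nil => intro x _; rfl
  | cons i w ih =>
    intro x hx
    show ‖x‖ * fderiv ℝ (Ew w (F [])) x (EuclideanSpace.single i 1) = _
    have he : Ew w (F []) =ᶠ[nhds x] F w := by
      filter_upwards [isOpen_compl_singleton.mem_nhds hx] with y hy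
      exact ih y hy
    rw [he.fderiv_eq, (c11_hfd hC hd w hx).fderiv, _root_.sum_apply]
    have hx' : ‖x‖ ≠ 0 := norm_ne_zero_iff.2 hx
    have e : ∀ j : Fin (n + 1), ((‖x‖⁻¹ * F (j :: w) x) • c11p j)
        (EuclideanSpace.single i (1 : ℝ)) = if j = i then ‖x‖⁻¹ * F (i :: w) x else 0 := by
      intro j
      by_cases h : j = i
      · subst h; simp [c11p]
      · simp [c11p, h]
    rw [Finset.sum_congr rfl fun j _ => e j, Finset.sum_ite_eq' Finset.univ i,
      if_pos (Finset.mem_univ i), ← mul_assoc, mul_inv_cancel₀ hx', one_mul]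

theorem goal_C11 (_hC1 : Goal_C1) (_hC2 : Goal_C2) : Goal_C11 := goal_C11'

end Pool.Agent.Helper47.RFn
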